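import Pool.Agent.Helper53.AE.GoalsA

/-!
Packet POL of project AE (MP_8130e1_an): polar decomposition near a partial isometry.
-/

set_option autoImplicit false

open scoped ComplexOrder Topology

namespace Pool.Agent.Helper90.AE

open Pool.Agent.Helper53.AE

/-- cut function -/
noncomputable def ch (x : ℝ) : ℝ := max 0 (min 1 (2 * x - 1 / 2))

/-- inverse square root with a cut -/
noncomputable def gg (x : ℝ) : ℝ := ch x * (√(max x (1 / 4)))⁻¹

lemma ch_cont : Continuous ch := by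
  unfold ch
  fun_prop

lemma ch_one (x : ℝ) (hx : 3 / 4 ≤ x) : ch x = 1 := by
  unfold ch
  rw [min_eq_left (by linarith), max_eq_right (by norm_num)]

lemma ch_zero (x : ℝ) (hx : x ≤ 1 / 4) : ch x = 0 := by
  unfold ch
  rw [min_eq_right (by linarith), max_eq_left (by linarith)]

lemma gg_cont : Continuous gg := by
  unfold gg
  have h1 : Continuous fun x : ℝ => √(max x (1 / 4)) := by fun_prop
  exact ch_cont.mul (h1.inv₀ fun x => (Real.sqrt_pos.2 (lt_max_of_lt_right (by norm_num))).ne')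

lemma gg_zero (x : ℝ) (hx : x ≤ 1 / 4) : gg x = 0 := by
  unfold gg
  rw [ch_zero x hx, zero_mul]

lemma gg_one (x : ℝ) (hx : 3 / 4 ≤ x) : gg x = (√x)⁻¹ := by
  unfold gg
  rw [ch_one x hx, one_mul, max_eq_left (by linarith)]

section

variable {N : Type} [NonUnitalCStarAlgebra N]

lemma proj_norm_eq (e : N) (h1 : star e = e) (h2 : e * e = e) : ‖e‖ = ‖e‖ * ‖e‖ := by
  have h3 : ‖star e * e‖ = ‖e‖ * ‖e‖ := CStarRing.norm_star_mul_self
  rw [h1, h2] at h3
  exact h3

lemma proj_norm (e : N) (h1 : star e = e) (h2 : e * e = e) : ‖e‖ ≤ 1 := by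
  have h3 := proj_norm_eq e h1 h2
  by_contra h4
  push Not at h4
  nlinarith

lemma proj_zero (e : N) (h1 : star e = e) (h2 : e * e = e) (h4 : ‖e‖ < 1) : e = 0 := by
  have h3 := proj_norm_eq e h1 h2
  have h5 : ‖e‖ = 0 := by
    by_contra h6
    have h7 : 0 < ‖e‖ := lt_of_le_of_ne (norm_nonneg e) (Ne.symm h6)
    nlinarith
  exact norm_eq_zero.1 h5

/-- functions that vanish near `0` of an element of the corner of `p` are in the corner -/
lemma corner (a p : N) (ha : star a = a) (hpa : p * a = a) (hap : a * p = a)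
    (hsp : ∀ x ∈ quasispectrum ℝ a, x ≤ 1 / 4 ∨ 3 / 4 ≤ x) (f : ℝ → ℝ) (hf : Continuous f)
    (hf0 : ∀ x, x ≤ 1 / 4 → f x = 0) : p * cfcₙ f a = cfcₙ f a ∧ cfcₙ f a * p = cfcₙ f a := by
  have hsa : IsSelfAdjoint a := ha
  have hpos : ∀ x : ℝ, max x (1 / 4) ≠ 0 := fun x =>
    (lt_max_of_lt_right (by norm_num)).ne'
  set h : ℝ → ℝ := fun x => f x * (max x (1 / 4))⁻¹ with hh
  have hc : Continuous h := hf.mul ((by fun_prop : Continuous fun x : ℝ => max x (1 / 4)).inv₀ hpos)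
  have h0 : h 0 = 0 := by
    rw [hh]
    show f 0 * _ = 0
    rw [hf0 0 (by norm_num), zero_mul]
  have key : ∀ x ∈ quasispectrum ℝ a, f x = x * h x := by
    intro x hx
    rcases hsp x hx with h1 | h1
    · rw [hh]
      show f x = x * (f x * _)
      rw [hf0 x h1, zero_mul, mul_zero]
    · rw [hh]
      show f x = x * (f x * (max x (1 / 4))⁻¹)
      rw [max_eq_left (by linarith)]
      field_simp
  have e1 : cfcₙ f a = a * cfcₙ h a := by
    rw [cfcₙ_congr (f := f) (g := fun x => x * h x) key,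
      cfcₙ_mul (fun x : ℝ => x) h a (by fun_prop) rfl hc.continuousOn h0, cfcₙ_id' ℝ a hsa]
  have e2 : cfcₙ f a = cfcₙ h a * a := by
    rw [cfcₙ_congr (f := f) (g := fun x => h x * x) (fun x hx => by rw [key x hx, mul_comm]),
      cfcₙ_mul h (fun x : ℝ => x) a hc.continuousOn h0 (by fun_prop) rfl, cfcₙ_id' ℝ a hsa]
  refine ⟨?_, ?_⟩
  · rw [e1, ← mul_assoc, hpa]
  · rw [e2, mul_assoc, hap]

end

lemma inv_sqrt_sub_one (x : ℝ) (hx : 3 / 4 ≤ x) : |(√x)⁻¹ - 1| ≤ |x - 1| := by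
  have h0 : 0 ≤ x := by linarith
  have hs : 3 / 4 ≤ √x := by
    rw [Real.le_sqrt (by norm_num) h0]
    linarith
  have hss : √x * √x = x := Real.mul_self_sqrt h0
  have hs0 : √x ≠ 0 := by linarith
  have h1 : (√x)⁻¹ - 1 = (1 - x) * ((√x)⁻¹ * (1 + √x)⁻¹) := by
    have h2 : 1 + √x ≠ 0 := by linarith
    field_simp
    nlinarith
  have h3 : 0 ≤ (√x)⁻¹ * (1 + √x)⁻¹ := by positivity
  have h4 : (√x)⁻¹ * (1 + √x)⁻¹ ≤ 1 := by
    rw [← mul_inv]
    apply inv_le_one_of_one_le₀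
    nlinarith
  rw [h1, abs_mul, abs_of_nonneg h3, abs_sub_comm]
  have := abs_nonneg (x - 1)
  nlinarith

theorem t : S_POL := by
  intro N _ F hF p q v y δ hp hq hpj hqj hvp hvq hy hyv hδ
  haveI := hF
  obtain ⟨ps, pp⟩ := hpj
  obtain ⟨qs, qq⟩ := hqj
  have hδ0 : 0 ≤ δ := (norm_nonneg _).trans hyv
  have hpn : ‖p‖ ≤ 1 := proj_norm p ps pp
  have hqn : ‖q‖ ≤ 1 := proj_norm q qs qq
  have hvn : ‖v‖ ≤ 1 := by
    have h1 : ‖star v * v‖ = ‖v‖ * ‖v‖ := CStarRing.norm_star_mul_self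
    rw [hvp] at h1
    nlinarith [norm_nonneg v]
  have hvp' : v * p = v := by
    have e1 : p * star v * (v * p) = p := by
      calc p * star v * (v * p) = p * (star v * v) * p := by simp only [mul_assoc]
        _ = p := by rw [hvp, pp, pp]
    have e2 : p * star v * v = p := by rw [mul_assoc, hvp, pp]
    have e3 : star v * (v * p) = p := by rw [← mul_assoc, hvp, pp]
    have h1 : star (v * p - v) * (v * p - v) = 0 := by
      rw [star_sub, star_mul, ps, sub_mul, mul_sub, mul_sub, e1, e2, e3, hvp, sub_self]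
    exact sub_eq_zero.1 ((CStarRing.star_mul_self_eq_zero_iff _).1 h1)
  have hqv : q * v = v := by rw [← hvq, mul_assoc, hvp, hvp']
  set y₁ : N := q * y * p with hy₁
  have hy1 : y₁ ∈ F := mul_mem (mul_mem hq hy) hp
  have hy1p : y₁ * p = y₁ := by rw [hy₁, mul_assoc, pp]
  have hqy1 : q * y₁ = y₁ := by rw [hy₁, ← mul_assoc, ← mul_assoc, qq]
  have hpy1 : p * star y₁ = star y₁ := by
    have h1 := congrArg star hy1p
    rw [star_mul, ps] at h1
    exact h1
  have hy1v : ‖y₁ - v‖ ≤ δ := by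
    have h1 : y₁ - v = q * (y - v) * p := by
      rw [mul_sub, sub_mul, hqv, hvp']
    rw [h1]
    calc ‖q * (y - v) * p‖ ≤ ‖q‖ * ‖y - v‖ * ‖p‖ :=
          (norm_mul_le _ _).trans (mul_le_mul_of_nonneg_right (norm_mul_le _ _) (norm_nonneg _))
      _ ≤ 1 * δ * 1 := by gcongr
      _ = δ := by ring
  have hy1n : ‖y₁‖ ≤ 1 + δ := by
    calc ‖y₁‖ = ‖v + (y₁ - v)‖ := by rw [add_sub_cancel]
      _ ≤ ‖v‖ + ‖y₁ - v‖ := norm_add_le _ _
      _ ≤ 1 + δ := add_le_add hvn hy1v
  set a : N := star y₁ * y₁ with ha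
  have haF : a ∈ F := mul_mem (star_mem hy1) hy1
  have has : star a = a := by rw [ha, star_mul, star_star]
  have hsa : IsSelfAdjoint a := has
  have hpa : p * a = a := by rw [ha, ← mul_assoc, hpy1]
  have hap : a * p = a := by rw [ha, mul_assoc, hy1p]
  have han : ‖a‖ ≤ (1 + δ) * (1 + δ) := by
    rw [ha]
    refine (norm_mul_le _ _).trans ?_
    rw [norm_star]
    gcongr
  have hapn : ‖a - p‖ ≤ δ * (2 + δ) := by
    have h1 : a - p = star y₁ * (y₁ - v) + star (y₁ - v) * v := by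
      rw [ha, mul_sub, star_sub, sub_mul, hvp]
      abel
    rw [h1]
    calc ‖star y₁ * (y₁ - v) + star (y₁ - v) * v‖ ≤ ‖star y₁‖ * ‖y₁ - v‖ + ‖star (y₁ - v)‖ * ‖v‖ :=
          (norm_add_le _ _).trans (add_le_add (norm_mul_le _ _) (norm_mul_le _ _))
      _ ≤ (1 + δ) * δ + δ * 1 := by
          rw [norm_star, norm_star]
          gcongr
      _ = δ * (2 + δ) := by ring
  have haa : a * a - a = a * (a - p) := by rw [mul_sub, hap]
  have haan : ‖a * a - a‖ ≤ (1 + δ) * (1 + δ) * (δ * (2 + δ)) := by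
    rw [haa]
    exact (norm_mul_le _ _).trans (mul_le_mul han hapn (norm_nonneg _) (by positivity))
  have hb1 : (1 + δ) * (1 + δ) * (δ * (2 + δ)) ≤ 9 / 4 * δ := by
    have h1 : (1 + δ) * (1 + δ) * (2 + δ) ≤ (1 + 1 / 32) * (1 + 1 / 32) * (2 + 1 / 32) := by gcongr
    nlinarith
  have hb2 : ‖a * a - a‖ ≤ 9 / 4 * δ := haan.trans hb1
  have hb3 : ‖a * a - a‖ ≤ 1 / 12 := hb2.trans (by linarith)
  -- the spectrum
  have h1 : cfcₙ (fun x : ℝ => x * x - x) a = a * a - a := by
    rw [cfcₙ_sub (fun x : ℝ => x * x) (fun x : ℝ => x) a (by fun_prop) (by simp) (by fun_prop)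
      rfl, cfcₙ_mul (fun x : ℝ => x) (fun x : ℝ => x) a (by fun_prop) rfl (by fun_prop) rfl,
      cfcₙ_id' ℝ a hsa]
  have hspn : ∀ x ∈ quasispectrum ℝ a, |x * x - x| ≤ ‖a * a - a‖ := by
    intro x hx
    have h2 := norm_apply_le_norm_cfcₙ (fun x : ℝ => x * x - x) a hx (by fun_prop) (by simp) hsa
    rw [h1] at h2
    exact h2
  have hsp2 : ∀ x ∈ quasispectrum ℝ a, x ≤ 1 / 4 ∨ 3 / 4 ≤ x := by
    intro x hx
    have h2 := (hspn x hx).trans hb3
    rw [abs_le] at h2
    by_contra h3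
    push Not at h3
    nlinarith [h3.1, h3.2, h2.1]
  have hlow : ∀ x ∈ quasispectrum ℝ a, x ≤ 1 / 4 → |x| ≤ 1 / 9 := by
    intro x hx h4
    have h3 := (hspn x hx).trans hb3
    have h5 : |x * x - x| = |x| * (1 - x) := by
      rw [show x * x - x = -(x * (1 - x)) by ring, abs_neg, abs_mul,
        abs_of_nonneg (show 0 ≤ 1 - x by linarith)]
    rw [h5] at h3
    nlinarith [abs_nonneg x]
  have hhigh : ∀ x ∈ quasispectrum ℝ a, 3 / 4 ≤ x → |x - 1| ≤ 3 * δ := by
    intro x hx h4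
    have h3 := (hspn x hx).trans hb2
    have h5 : |x * x - x| = x * |x - 1| := by
      rw [show x * x - x = x * (x - 1) by ring, abs_mul, abs_of_nonneg (show 0 ≤ x by linarith)]
    rw [h5] at h3
    nlinarith [abs_nonneg (x - 1)]
  -- the elements `r` and `z`
  have gg0 : gg 0 = 0 := gg_zero 0 (by norm_num)
  have ch0 : ch 0 = 0 := ch_zero 0 (by norm_num)
  obtain ⟨z, hz⟩ : ∃ z, z = cfcₙ gg a := ⟨_, rfl⟩
  obtain ⟨r, hr⟩ : ∃ r, r = cfcₙ ch a := ⟨_, rfl⟩
  have hzF : z ∈ F := hz ▸ cfcₙ_mem gg haF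
  have hzs : star z = z := by
    rw [hz]
    exact (cfcₙ_predicate gg a : IsSelfAdjoint (cfcₙ gg a))
  have hrs : star r = r := by
    rw [hr]
    exact (cfcₙ_predicate ch a : IsSelfAdjoint (cfcₙ ch a))
  obtain ⟨hpz, hzp⟩ := corner a p has hpa hap hsp2 gg gg_cont gg_zero
  obtain ⟨hpr, hrp⟩ := corner a p has hpa hap hsp2 ch ch_cont ch_zero
  rw [← hz] at hpz hzp
  rw [← hr] at hpr hrp
  have hrr : r * r = r := by
    rw [hr, ← cfcₙ_mul ch ch a ch_cont.continuousOn ch0 ch_cont.continuousOn ch0]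
    refine cfcₙ_congr fun x hx => ?_
    show ch x * ch x = ch x
    rcases hsp2 x hx with h2 | h2
    · rw [ch_zero x h2, mul_zero]
    · rw [ch_one x h2, mul_one]
  have hzaz : z * a * z = r := by
    have e1 : z * a = cfcₙ (fun x => gg x * x) a := by
      rw [cfcₙ_mul gg (fun x : ℝ => x) a gg_cont.continuousOn gg0 (by fun_prop) rfl,
        cfcₙ_id' ℝ a hsa, hz]
    rw [e1, hz, hr, ← cfcₙ_mul (fun x => gg x * x) gg a
      ((gg_cont.mul continuous_id').continuousOn) (by rw [gg0, zero_mul]) gg_cont.continuousOn gg0]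
    refine cfcₙ_congr fun x hx => ?_
    show gg x * x * gg x = ch x
    rcases hsp2 x hx with h2 | h2
    · rw [ch_zero x h2, gg_zero x h2, mul_zero]
    · rw [ch_one x h2, gg_one x h2]
      have h3 : √x * √x = x := Real.mul_self_sqrt (by linarith)
      have h4 : √x ≠ 0 := (Real.sqrt_pos.2 (by linarith)).ne'
      field_simp
      nlinarith
  -- `r = p`
  have hra : ‖a - r * a‖ ≤ 1 / 9 := by
    have e1 : a - r * a = cfcₙ (fun x => x - ch x * x) a := by
      rw [cfcₙ_sub (fun x : ℝ => x) (fun x : ℝ => ch x * x) a (by fun_prop) rfl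
        ((ch_cont.mul continuous_id').continuousOn) (by rw [ch0, zero_mul]),
        cfcₙ_mul ch (fun x : ℝ => x) a ch_cont.continuousOn ch0 (by fun_prop) rfl,
        cfcₙ_id' ℝ a hsa, hr]
    rw [e1]
    refine norm_cfcₙ_le fun x hx => ?_
    rw [Real.norm_eq_abs]
    rcases hsp2 x hx with h2 | h2
    · rw [ch_zero x h2, zero_mul, sub_zero]
      exact hlow x hx h2
    · rw [ch_one x h2, one_mul, sub_self, abs_zero]
      norm_num
  have hs1 : star (p - r) = p - r := by rw [star_sub, ps, hrs]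
  have hs2 : (p - r) * (p - r) = p - r := by
    rw [mul_sub, sub_mul, sub_mul, pp, hrp, hpr, hrr, sub_self, sub_zero]
  have hpr0 : p - r = 0 := by
    refine proj_zero _ hs1 hs2 ?_
    have e1 : p - r = (p - r) * (p - a) + (a - r * a) := by
      rw [mul_sub, sub_mul, sub_mul, pp, hrp, hpa]
      abel
    have e2 := proj_norm _ hs1 hs2
    have e3 : ‖p - a‖ ≤ 1 / 15 := by
      rw [norm_sub_rev]
      refine hapn.trans ?_
      nlinarith
    calc ‖p - r‖ = ‖(p - r) * (p - a) + (a - r * a)‖ := by rw [← e1]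
      _ ≤ ‖p - r‖ * ‖p - a‖ + ‖a - r * a‖ :=
          (norm_add_le _ _).trans (add_le_add (norm_mul_le _ _) le_rfl)
      _ ≤ 1 * (1 / 15) + 1 / 9 := by gcongr
      _ < 1 := by norm_num
  have hrp' : r = p := (sub_eq_zero.1 hpr0).symm
  have hzn : ‖z - p‖ ≤ 3 * δ := by
    have e1 : z - p = cfcₙ (fun x => gg x - ch x) a := by
      rw [cfcₙ_sub gg ch a gg_cont.continuousOn gg0 ch_cont.continuousOn ch0, ← hz, ← hr, hrp']
    rw [e1]
    refine norm_cfcₙ_le fun x hx => ?_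
    rw [Real.norm_eq_abs]
    rcases hsp2 x hx with h2 | h2
    · rw [ch_zero x h2, gg_zero x h2, sub_self, abs_zero]
      linarith
    · rw [ch_one x h2, gg_one x h2]
      exact (inv_sqrt_sub_one x h2).trans (hhigh x hx h2)
  -- the partial isometry
  obtain ⟨v', hv'⟩ : ∃ v', v' = y₁ * z := ⟨_, rfl⟩
  have hv'F : v' ∈ F := hv' ▸ mul_mem hy1 hzF
  have hsv' : star v' * v' = p := by
    rw [hv', star_mul, hzs]
    calc z * star y₁ * (y₁ * z) = z * (star y₁ * y₁) * z := by simp only [mul_assoc]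
      _ = p := by rw [← ha, hzaz, hrp']
  have hv'p : v' * p = v' := by rw [hv', mul_assoc, hzp]
  have hqv' : q * v' = v' := by rw [hv', ← mul_assoc, hqy1]
  have hv'q : star v' * q = star v' := by
    have h2 := congrArg star hqv'
    rw [star_mul, qs] at h2
    exact h2
  have hv'v : ‖v' - v‖ ≤ 8 * δ := by
    have e1 : v' - v = y₁ * (z - p) + (y₁ - v) := by
      rw [mul_sub, hy1p, hv']
      abel
    rw [e1]
    calc ‖y₁ * (z - p) + (y₁ - v)‖ ≤ ‖y₁‖ * ‖z - p‖ + ‖y₁ - v‖ :=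
          (norm_add_le _ _).trans (add_le_add (norm_mul_le _ _) le_rfl)
      _ ≤ (1 + δ) * (3 * δ) + δ := by gcongr
      _ ≤ 8 * δ := by nlinarith
  have hv'n : ‖v'‖ ≤ 1 := by
    have h2 : ‖star v' * v'‖ = ‖v'‖ * ‖v'‖ := CStarRing.norm_star_mul_self
    rw [hsv'] at h2
    nlinarith [norm_nonneg v']
  refine ⟨v', hv'F, hsv', ?_, hv'v⟩
  have hs3 : star (q - v' * star v') = q - v' * star v' := by
    rw [star_sub, qs, star_mul, star_star]
  have e1 : v' * star v' * (v' * star v') = v' * star v' := by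
    calc v' * star v' * (v' * star v') = v' * (star v' * v') * star v' := by simp only [mul_assoc]
      _ = v' * star v' := by rw [hsv', hv'p]
  have e2 : q * (v' * star v') = v' * star v' := by rw [← mul_assoc, hqv']
  have e3 : v' * star v' * q = v' * star v' := by rw [mul_assoc, hv'q]
  have hs4 : (q - v' * star v') * (q - v' * star v') = q - v' * star v' := by
    rw [mul_sub, sub_mul, sub_mul, qq, e1, e2, e3, sub_self, sub_zero]
  have hs5 : q - v' * star v' = 0 := by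
    refine proj_zero _ hs3 hs4 ?_
    have e4 : q - v' * star v' = (v - v') * star v + v' * star (v - v') := by
      rw [star_sub, mul_sub, sub_mul, hvq]
      abel
    rw [e4]
    calc ‖(v - v') * star v + v' * star (v - v')‖ ≤ ‖v - v'‖ * ‖star v‖ + ‖v'‖ * ‖star (v - v')‖ :=
          (norm_add_le _ _).trans (add_le_add (norm_mul_le _ _) (norm_mul_le _ _))
      _ ≤ (8 * δ) * 1 + 1 * (8 * δ) := by
          rw [norm_star, norm_star, norm_sub_rev]
          gcongr
      _ < 1 := by linarith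
  exact (sub_eq_zero.1 hs5).symm

end Pool.Agent.Helper90.AE
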